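import Mathlib

/-!
# Complete intersections of `m` forms of bidegree `(1,1)` and one of bidegree `(2,2)` in
`P^(m+1) × P^(m+1)`: definitions for all `m`

`n = m + 1` is the dimension.  Homogeneous coordinates are indexed by `Fin (m + 2)`; the affine part
of `x = (1, u)` is indexed by `Fin (m + 1)`.

* `lf c r x y`: the bilinear forms; `qf c x x' y y'`: the polarisation of the `(2,2)`-form.
* `yh c x z = (D, z D, w)`: the point with `y 1 = z y 0` of the line over `x` (`D = det (Mx c x)`).
* `xh c y = (0, v, det Nx)`: the point with `x 0 = 0` of the line over `y`.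
* `nx c x y`: the second point over `y` (the involution which changes `x`).
* `ny c x y`: the second point over `x` (the involution which changes `y`).
* `ch`, `Rz`: the chain of curves and its points.
* `Fh c x z = Ah z^2 + 2 Bh z + Ch`: the form on the line over `x`.
* `psh`, `kah`: `Q(x, ξ; y, y)` and `Q(ξ, ξ; y, y)` at `y = yh c x z`, `ξ = xh c y`.
* `qh c x ξ z`: derivative of the form on the line over `x` in the direction `ξ`, at `z`.
* `Eq`: the square system of equations of a configuration `(u, z)`; `Pp`: product of the quantities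
  which must not be zero.
-/

namespace Pool.Agent.Helper28.HN

open MvPolynomial

/-- Homogeneous coordinates. -/
abbrev I (m : ℕ) := Fin (m + 2)

/-- Coefficients of `m` bilinear forms and of one form of bidegree `(2,2)`. -/
abbrev Ix (m : ℕ) := (Fin m × I m × I m) ⊕ (I m × I m × I m × I m)

section defs

variable {m : ℕ} {S : Type*} [CommRing S]

/-- The bilinear forms. -/
def lf (c : Ix m → S) (r : Fin m) (x y : I m → S) : S :=
  ∑ i, ∑ j, c (.inl (r, i, j)) * x i * y j

/-- The symmetric tensor of the form of bidegree `(2,2)`. -/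
def pq (c : Ix m → S) (i j k l : I m) : S :=
  c (.inr (i, j, k, l)) + c (.inr (j, i, k, l)) + c (.inr (i, j, l, k)) + c (.inr (j, i, l, k))

/-- The polarisation of the form of bidegree `(2,2)`. -/
def qf (c : Ix m → S) (x x' y y' : I m → S) : S :=
  ∑ i, ∑ j, ∑ k, ∑ l, pq c i j k l * x i * x' j * y k * y' l

/-- The point `(x, y)` lies on the complete intersection. -/
def OnX (c : Ix m → S) (x y : I m → S) : Prop :=
  (∀ r, lf c r x y = 0) ∧ qf c x x y y = 0

/-- Exchange of the two factors. -/
def sw : Ix m → Ix m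
  | .inl (r, i, j) => .inl (r, j, i)
  | .inr (i, j, k, l) => .inr (k, l, i, j)

/-- The linear forms `L_r (· , y)`. -/
def rw' (c : Ix m → S) (y : I m → S) : Fin m → I m → S :=
  fun r i => ∑ j, c (.inl (r, i, j)) * y j

/-- The generalised cross product of `ζ` and `m` linear forms. -/
noncomputable def cr (A : Fin m → I m → S) (ζ : I m → S) : I m → S :=
  fun i => Matrix.det (Matrix.of (Fin.cons (Pi.single i 1) (Fin.cons ζ A) :
    Fin (m + 2) → I m → S))

/-- The symmetric product of the two points over `y`. -/
noncomputable def gG (c : Ix m → S) (y : I m → S) (p : I m × I m) : S :=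
  2 * qf c (cr (rw' c y) (Pi.single p.1 1)) (cr (rw' c y) (Pi.single p.2 1)) y y

/-- The forms `gG`. -/
noncomputable def cG (c : Ix m → S) (p : I m × I m) : MvPolynomial (I m) S :=
  gG (fun e => C (c e)) X p

/-- The affine point. -/
def aff (u : Fin (m + 1) → S) : I m → S := Fin.cons 1 u

/-- The matrix of the equations of the line over `x`, without the first two columns. -/
def Mx (c : Ix m → S) (x : I m → S) : Matrix (Fin m) (Fin m) S :=
  fun r b => lf c r x (Pi.single b.succ.succ 1)

/-- The point with `y 1 = 0` of the line over `x`. -/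
noncomputable def Y0 (c : Ix m → S) (x : I m → S) : I m → S :=
  Fin.cons (Mx c x).det (Fin.cons 0
    (- ((Mx c x).adjugate.mulVec fun r => lf c r x (Pi.single 0 1))))

/-- The point with `y 0 = 0` of the line over `x`. -/
noncomputable def Y1 (c : Ix m → S) (x : I m → S) : I m → S :=
  Fin.cons 0 (Fin.cons (Mx c x).det
    (- ((Mx c x).adjugate.mulVec fun r => lf c r x (Pi.single 1 1))))

/-- The point with `y 1 = z * y 0` of the line over `x`. -/
noncomputable def yh (c : Ix m → S) (x : I m → S) (z : S) : I m → S :=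
  fun i => Y0 c x i + z * Y1 c x i

/-- The matrix of the equations of the line over `y`, without the first and the last column. -/
def Nx (c : Ix m → S) (y : I m → S) : Matrix (Fin m) (Fin m) S :=
  fun r i => lf c r (Pi.single i.castSucc.succ 1) y

/-- The affine part of the point with `x 0 = 0` of the line over `y`. -/
noncomputable def vh (c : Ix m → S) (y : I m → S) : Fin (m + 1) → S :=
  Fin.snoc (- ((Nx c y).adjugate.mulVec fun r => lf c r (Pi.single (Fin.last (m + 1)) 1) y))
    (Nx c y).det

/-- The point with `x 0 = 0` of the line over `y`. -/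
noncomputable def xh (c : Ix m → S) (y : I m → S) : I m → S := Fin.cons 0 (vh c y)

/-- The second point over `y`. -/
noncomputable def nx (c : Ix m → S) (x y : I m → S) : I m → S :=
  fun i => qf c (xh c y) (xh c y) y y * x i - 2 * qf c x (xh c y) y y * xh c y i

/-- The form on the line over `x`. -/
noncomputable def Fh (c : Ix m → S) (x : I m → S) (z : S) : S := qf c x x (yh c x z) (yh c x z)

/-- Its coefficients. -/
noncomputable def Ah (c : Ix m → S) (x : I m → S) : S := qf c x x (Y1 c x) (Y1 c x)

/-- Its coefficients. -/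
noncomputable def Bh (c : Ix m → S) (x : I m → S) : S := qf c x x (Y0 c x) (Y1 c x)

/-- Its coefficients. -/
noncomputable def Ch (c : Ix m → S) (x : I m → S) : S := qf c x x (Y0 c x) (Y0 c x)

/-- The second point over `x`; `ny c x (yh c x z) = Ah c x * yh c x w`, `Ah w = -2 Bh - Ah z`. -/
noncomputable def ny (c : Ix m → S) (x y : I m → S) : I m → S :=
  fun i => Ah c x * y i - 2 * qf c x x y (Y1 c x) * Y1 c x i

/-- `Q(x, ξ; y, y)`. -/
noncomputable def psh (c : Ix m → S) (x : I m → S) (z : S) : S :=
  qf c x (xh c (yh c x z)) (yh c x z) (yh c x z)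

/-- `Q(ξ, ξ; y, y)`. -/
noncomputable def kah (c : Ix m → S) (x : I m → S) (z : S) : S :=
  qf c (xh c (yh c x z)) (xh c (yh c x z)) (yh c x z) (yh c x z)

/-- The derivative of the form on the line over `x` in the direction `ξ` (times a power of
`det (Mx c x)`). -/
noncomputable def qh (c : Ix m → S) (x ξ : I m → S) (z : S) : S :=
  2 * ((Mx c x).det * qf c x ξ (yh c x z) (yh c x z) +
    qf c x x (yh c x z) (Fin.cons 0 (Fin.cons 0
      (- ((Mx c x).adjugate.mulVec fun r => lf c r ξ (yh c x z))))))

/-- `psh` as a polynomial in `z`. -/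
noncomputable def psP (c : Ix m → S) (x : I m → S) : Polynomial S :=
  psh (fun e => Polynomial.C (c e)) (fun i => Polynomial.C (x i)) Polynomial.X

/-- The direction at the root `z`. -/
noncomputable def xz (c : Ix m → S) (u : Fin (m + 1) → S) (z : S) : I m → S :=
  xh c (yh c (aff u) z)

end defs

section chain

variable {m : ℕ}

/-- The chain of curves: `(x0 + t ξ0, y1)`, then alternately the involutions over `x` (`ny`) and
over `y` (`nx`).  The curves `2 N`, `2 N + 1` have the same `x`, the curves `2 N + 1`, `2 N + 2` have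
the same `y`. -/
noncomputable def ch {S : Type*} [CommRing S] (c : Ix m → S) (x0 ξ0 y1 : I m → S) :
    ℕ → (I m → Polynomial S) × (I m → Polynomial S)
  | 0 => (fun i => Polynomial.C (x0 i) + Polynomial.X * Polynomial.C (ξ0 i),
      fun i => Polynomial.C (y1 i))
  | N + 1 =>
    if N % 2 = 0 then
      ((ch c x0 ξ0 y1 N).1, ny (fun e => Polynomial.C (c e)) (ch c x0 ξ0 y1 N).1
        (ch c x0 ξ0 y1 N).2)
    else
      (nx (fun e => Polynomial.C (c e)) (ch c x0 ξ0 y1 N).1 (ch c x0 ξ0 y1 N).2,
        (ch c x0 ξ0 y1 N).2)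

/-- `(x, y)` is (up to factors) the value of the curve `N` at some parameter. -/
def Rz {k : Type*} [Field k] (c : Ix m → k) (x0 ξ0 y1 : I m → k) (N : ℕ) (x y : I m → k) : Prop :=
  ∃ τ α β : k, α ≠ 0 ∧ β ≠ 0 ∧ (∀ i, x i = α * ((ch c x0 ξ0 y1 N).1 i).eval τ) ∧
    ∀ i, y i = β * ((ch c x0 ξ0 y1 N).2 i).eval τ

end chain

section config

variable {m : ℕ} {S : Type*} [CommRing S]

/-- The unknowns: `u` and the roots `z`. -/
abbrev Un (m : ℕ) := Fin (m + 1) ⊕ Fin (m + 2)

/-- The equations: `psh = 0` at all roots, five more, and `u i = 0` for `3 ≤ i ≤ m - 2`. -/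
abbrev En (m : ℕ) := Fin (m + 2) ⊕ Fin 5 ⊕ {i : Fin (m + 1) // 3 ≤ i.val ∧ i.val + 2 ≤ m}

/-- The square system. The special roots are `z 0` (the start), `z 1` and the last root `z (m+1)`:
the direction at `z 1` is degenerate at the last root. -/
noncomputable def Eqn (c : Ix m → S) (k : Un m → S) : En m → S
  | .inl a => psh c (aff fun i => k (.inl i)) (k (.inr a))
  | .inr (.inl 0) => kah c (aff fun i => k (.inl i)) (k (.inr 0))
  | .inr (.inl 1) => Fh c (aff fun i => k (.inl i)) (k (.inr 0))
  | .inr (.inl 2) => Ah c (aff fun i => k (.inl i))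
  | .inr (.inl 3) => Bh c (aff fun i => k (.inl i))
  | .inr (.inl 4) => qh c (aff fun i => k (.inl i))
      (xz c (fun i => k (.inl i)) (k (.inr 1))) (k (.inr (Fin.last (m + 1))))
  | .inr (.inr i) => k (.inl i.1)

/-- The matrix of the directions at the roots `z a`, `a ≠ 0`. -/
noncomputable def Vm (c : Ix m → S) (k : Un m → S) : Matrix (Fin (m + 1)) (Fin (m + 1)) S :=
  fun a i => vh c (yh c (aff fun i => k (.inl i)) (k (.inr a.succ))) i

/-- The product of the quantities which must not vanish. -/
noncomputable def Pp (c : Ix m → S) (k : Un m → S) : S :=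
  (Mx c (aff fun i => k (.inl i))).det *
  (∏ a : Fin (m + 2), ∏ b : Fin (m + 2), if a = b then 1 else k (.inr a) - k (.inr b)) *
  (∏ a : Fin (m + 2), (Nx c (yh c (aff fun i => k (.inl i)) (k (.inr a)))).det) *
  (∏ a : Fin (m + 1), kah c (aff fun i => k (.inl i)) (k (.inr a.succ))) *
  (∏ a : Fin (m + 2), (psP c (aff fun i => k (.inl i))).derivative.eval (k (.inr a))) *
  (∏ a : Fin (m + 2), ∏ b : Fin (m + 2), if a = b ∨ (a = 1 ∧ b = Fin.last (m + 1)) then 1 else
    qh c (aff fun i => k (.inl i)) (xz c (fun i => k (.inl i)) (k (.inr a))) (k (.inr b))) *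
  (Vm c k).det

end config

end Pool.Agent.Helper28.HN
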