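import Mathlib
import Pool.Agent.Helper28.HN.Defs

/-!
# Project HN: the interface between the dynamics and the final assembly (definition)
-/

namespace Pool.Agent.Helper28.HN

open MvPolynomial

/-- The data of a chain which are needed for the final assembly: the start curve is a line
`{x0 + t ξ0} × {y1}` over a point `y1` where the fibre is a line. -/
structure Orb {m : ℕ} {K' k : Type} [Field K'] [Field k] [Algebra K' k] (c : Ix m → K')
    (x0 ξ0 y1 : I m → K') : Prop where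
  x00 : x0 0 = 1
  ξ00 : ξ0 0 = 0
  y10 : y1 0 ≠ 0
  l0 : ∀ r, lf c r x0 y1 = 0
  l1 : ∀ r, lf c r ξ0 y1 = 0
  q0 : qf c x0 x0 y1 y1 = 0
  q1 : qf c x0 ξ0 y1 y1 = 0
  q2 : qf c ξ0 ξ0 y1 y1 = 0
  /-- the first coordinates do not vanish -/
  hx : ∀ N, (ch c x0 ξ0 y1 N).1 0 ≠ 0
  /-- the first coordinates do not vanish -/
  hy : ∀ N, (ch c x0 ξ0 y1 N).2 0 ≠ 0
  /-- the fibres over the points of the chain are finite -/
  hA : ∀ N, Ah (fun e => Polynomial.C (c e)) (ch c x0 ξ0 y1 N).1 ≠ 0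
  /-- the fibres over the points of the chain are finite -/
  hK : ∀ N, 1 ≤ N → qf (fun e => Polynomial.C (c e))
    (xh (fun e => Polynomial.C (c e)) (ch c x0 ξ0 y1 N).2)
    (xh (fun e => Polynomial.C (c e)) (ch c x0 ξ0 y1 N).2)
    (ch c x0 ξ0 y1 N).2 (ch c x0 ξ0 y1 N).2 ≠ 0
  /-- the charts are good along the chain -/
  hD : ∀ N, (Mx (fun e => Polynomial.C (c e)) (ch c x0 ξ0 y1 N).1).det ≠ 0
  /-- the charts are good along the chain -/
  hN : ∀ N, (Nx (fun e => Polynomial.C (c e)) (ch c x0 ξ0 y1 N).2).det ≠ 0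
  hξ : ξ0 ≠ 0
  /-- two coprime forms vanish together on finitely many curves only -/
  fX : ∀ (F1 F2 : MvPolynomial (I m) k) (e1 e2 : ℕ), F1.IsHomogeneous e1 → F2.IsHomogeneous e2 →
    IsRelPrime F1 F2 → {N | aeval (fun i => ((ch c x0 ξ0 y1 N).1 i).map (algebraMap K' k)) F1 = 0 ∧
      aeval (fun i => ((ch c x0 ξ0 y1 N).1 i).map (algebraMap K' k)) F2 = 0}.Finite
  /-- two coprime forms vanish together on finitely many curves only -/
  fY : ∀ (F1 F2 : MvPolynomial (I m) k) (e1 e2 : ℕ), F1.IsHomogeneous e1 → F2.IsHomogeneous e2 →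
    IsRelPrime F1 F2 → {N | aeval (fun i => ((ch c x0 ξ0 y1 N).2 i).map (algebraMap K' k)) F1 = 0 ∧
      aeval (fun i => ((ch c x0 ξ0 y1 N).2 i).map (algebraMap K' k)) F2 = 0}.Finite

end Pool.Agent.Helper28.HN
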