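import Mathlib
import Pool.Agent.Helper28.HN.Orb
import Pool.Agent.Helper24.HN.Defs

/-!
# Project HN: configurations over the `p`-adic integers
-/

namespace Pool.Agent.Helper28.HN

open MvPolynomial

/-- The leading coefficient (in `z`) of `qh c x ξ z`. -/
noncomputable def qa {m : ℕ} {S : Type*} [CommRing S] (c : Ix m → S) (x ξ : I m → S) : S :=
  2 * ((Mx c x).det * qf c x ξ (Y1 c x) (Y1 c x) +
    qf c x x (Y1 c x) (Fin.cons 0 (Fin.cons 0
      (- ((Mx c x).adjugate.mulVec fun r => lf c r ξ (Y1 c x))))))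

/-- The system as polynomials in the unknowns. -/
noncomputable def Gs {m : ℕ} {S : Type*} [CommRing S] (c : Ix m → S) (i : En m) :
    MvPolynomial (Un m) S := Eqn (fun e => C (c e)) X i

/-- The equations and the unknowns have the same number. -/
theorem exists_ee {m : ℕ} (hm : 4 ≤ m) : Nonempty (Un m ≃ En m) := by
  have h1 : Fintype.card {i : Fin (m + 1) // 3 ≤ i.val ∧ i.val + 2 ≤ m} = m - 4 := by
    have h2 : ({i : Fin (m + 1) | 3 ≤ i.val ∧ i.val + 2 ≤ m} : Finset (Fin (m + 1))).card = m - 4 := by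
      have h3 : ({i : Fin (m + 1) | 3 ≤ i.val ∧ i.val + 2 ≤ m} : Finset (Fin (m + 1))).map
          Fin.valEmbedding = Finset.Ico 3 (m - 1) := by
        ext a
        simp only [Finset.mem_map, Finset.mem_filter, Finset.mem_univ, true_and, Finset.mem_Ico,
          Fin.valEmbedding_apply]
        constructor
        · rintro ⟨i, h, rfl⟩
          omega
        · intro h
          exact ⟨⟨a, by omega⟩, by constructor <;> simp <;> omega, rfl⟩
      have h4 := congrArg Finset.card h3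
      rw [Finset.card_map, Nat.card_Ico] at h4
      omega
    rw [← h2, Fintype.card_subtype]
  refine Fintype.card_eq.1 ?_
  simp only [Fintype.card_sum, Fintype.card_fin, h1]
  omega

/-- A choice. -/
noncomputable def ee {m : ℕ} (hm : 4 ≤ m) : Un m ≃ En m := (exists_ee hm).some

/-- A configuration near a flop curve: `k = (u, z)`, small right hand sides. -/
structure Cfg {p : ℕ} [Fact p.Prime] {m : ℕ} (c : Ix m → ℤ_[p]) (k : Un m → ℤ_[p]) : Prop where
  psi : ∀ a, psh c (aff fun i => k (.inl i)) (k (.inr a)) = 0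
  kap : kah c (aff fun i => k (.inl i)) (k (.inr 0)) = 0
  F0 : Fh c (aff fun i => k (.inl i)) (k (.inr 0)) = 0
  hA : ‖Ah c (aff fun i => k (.inl i))‖ ≤ (p : ℝ) ^ (-2 : ℤ)
  hB : ‖Bh c (aff fun i => k (.inl i))‖ ≤ (p : ℝ) ^ (-2 : ℤ)
  hq : ‖qh c (aff fun i => k (.inl i)) (xz c (fun i => k (.inl i)) (k (.inr 1)))
    (k (.inr (Fin.last (m + 1))))‖ = (p : ℝ) ^ (-1 : ℤ)
  hP : IsUnit (Pp c k)
  hst : ‖Ah c (aff fun i => k (.inl i)) * qh c (aff fun i => k (.inl i))
      (xz c (fun i => k (.inl i)) (k (.inr 0))) (k (.inr (Fin.last (m + 1)))) -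
    qa c (aff fun i => k (.inl i)) (xz c (fun i => k (.inl i)) (k (.inr 0))) *
      Fh c (aff fun i => k (.inl i)) (k (.inr (Fin.last (m + 1))))‖ = (p : ℝ) ^ (-2 : ℤ)

/-- The start curve of a configuration. -/
noncomputable def sy {p : ℕ} [Fact p.Prime] {m : ℕ} (c : Ix m → ℤ_[p]) (k : Un m → ℤ_[p]) :
    I m → ℤ_[p] := yh c (aff fun i => k (.inl i)) (k (.inr 0))

/-- Coordinates in the field. -/
def cp {p : ℕ} [Fact p.Prime] {ι : Type*} (v : ι → ℤ_[p]) : ι → ℚ_[p] := fun i => (v i : ℚ_[p])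

/-- Points of the curve `N` (with coordinates in the `p`-adic integers). -/
def Rp {p : ℕ} [Fact p.Prime] {m : ℕ} (c : Ix m → ℤ_[p]) (k : Un m → ℤ_[p]) (N : ℕ)
    (x : Fin (m + 1) → ℤ_[p]) (z : ℤ_[p]) : Prop :=
  Rz (cp c) (cp (aff fun i => k (.inl i))) (cp (xh c (sy c k))) (cp (sy c k)) N
    (cp (aff x)) (cp (yh c (aff x) z))

end Pool.Agent.Helper28.HN
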