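import Mathlib
import Pool.Agent.Helper94.HN.ExLoc
import Pool.Agent.Helper64.XI.Int
import Pool.Agent.Helper45.HN.Start
import Pool.Agent.Helper69.HN.Step
import Pool.Agent.Helper45.XN.Near
import Pool.Agent.Helper23.HNG.Map

/-!
# Project HN: every curve of the chain has a point in the ball
-/

namespace Pool.Agent.Helper28.HN.Pts

open Pool.Agent.Helper24.HN

theorem st_all {p : ℕ} [Fact p.Prime] {n : ℕ} {L : Loc p n} {J : Type} [DecidableEq J]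
    {R : Ref L J} (M : Mems L R) (N : ℕ) :
    ∃ (i b : J) (k : ℕ) (x : ℤ_[p] → V p n), (b = R.j ∨ b = R.m ∨ b = R.l) ∧ St M i b k N x := by
  induction N with
  | zero =>
    obtain ⟨x, hx⟩ := Pool.Agent.Helper45.HN.start (R := R) M
    exact ⟨R.y, R.j, 2, x, Or.inl rfl, hx⟩
  | succ N ih =>
    obtain ⟨i, b, k, x, hb, hx⟩ := ih
    have h1 : ∃ c, (c = R.j ∨ c = R.m ∨ c = R.l) ∧ Ok R b c := by
      rcases hb with rfl | rfl | rfl
      · exact ⟨R.m, Or.inr (Or.inl rfl), R.hjm, R.hyj.symm, R.hym.symm, Or.inl R.hjm⟩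
      · exact ⟨R.l, Or.inr (Or.inr rfl), R.hml, R.hym.symm, R.hyl.symm, Or.inr R.hlj⟩
      · exact ⟨R.j, Or.inl rfl, R.hlj, R.hyl.symm, R.hyj.symm, Or.inl R.hml.symm⟩
    obtain ⟨c, hc, hok⟩ := h1
    obtain ⟨x', hx', -⟩ := Pool.Agent.Helper69.HN.step M hx hok hx.hib
    exact ⟨b, c, _, x', hc, hx'⟩

theorem toZMod_eq {p : ℕ} [Fact p.Prime] {a b : ℤ_[p]} (h : ‖a - b‖ ≤ (p : ℝ) ^ (-2 : ℤ)) :
    PadicInt.toZMod a = PadicInt.toZMod b := by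
  have hp1 : (1 : ℝ) < p := by exact_mod_cast (Fact.out : p.Prime).one_lt
  have h1 : ‖a - b‖ < 1 := lt_of_le_of_lt h (zpow_lt_one_of_neg₀ hp1 (by norm_num))
  rw [← sub_eq_zero, ← map_sub, ← RingHom.mem_ker, PadicInt.ker_toZMod,
    PadicInt.maximalIdeal_eq_span_p, Pool.Agent.Helper45.XN.mem_span_iff]
  exact h1

theorem isUnit_of_toZMod {p : ℕ} [Fact p.Prime] {a b : ℤ_[p]}
    (h : PadicInt.toZMod a = PadicInt.toZMod b) (hb : IsUnit b) : IsUnit a := by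
  by_contra ha
  have h4 : a ∈ IsLocalRing.maximalIdeal ℤ_[p] := ha
  rw [← PadicInt.ker_toZMod, RingHom.mem_ker, h, ← RingHom.mem_ker, PadicInt.ker_toZMod] at h4
  exact h4 hb

theorem zmod_fun {p : ℕ} [Fact p.Prime] {n : ℕ} {x u : Fin n → ℤ_[p]}
    (h : ‖x - u‖ ≤ (p : ℝ) ^ (-2 : ℤ)) :
    (fun i => PadicInt.toZMod (x i)) = fun i => PadicInt.toZMod (u i) := by
  funext i
  refine toZMod_eq ?_
  exact (norm_le_pi_norm (x - u) i).trans h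

section unit

variable {p : ℕ} [Fact p.Prime] {m : ℕ} (c : Ix m → ℤ_[p]) {x u : Fin (m + 1) → ℤ_[p]}
  {z w : ℤ_[p]}

theorem aff_zmod (h : ‖x - u‖ ≤ (p : ℝ) ^ (-2 : ℤ)) :
    (fun i => PadicInt.toZMod ((aff x : I m → ℤ_[p]) i)) =
      fun i => PadicInt.toZMod ((aff u : I m → ℤ_[p]) i) := by
  funext i
  rw [Pool.Agent.Helper23.HNG.map_aff, Pool.Agent.Helper23.HNG.map_aff, zmod_fun h]

theorem detM_unit (h : ‖x - u‖ ≤ (p : ℝ) ^ (-2 : ℤ)) (hu : IsUnit (Mx c (aff u)).det) :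
    IsUnit (Mx c (aff x)).det := by
  refine isUnit_of_toZMod ?_ hu
  have e : ∀ v : I m → ℤ_[p], PadicInt.toZMod (Mx c v).det =
      (Mx (fun e => PadicInt.toZMod (c e)) (fun i => PadicInt.toZMod (v i))).det := by
    intro v
    rw [Pool.Agent.Helper23.HNG.map_det, Pool.Agent.Helper23.HNG.map_Mx]
  rw [e, e, aff_zmod h]

theorem yh_zmod (h : ‖x - u‖ ≤ (p : ℝ) ^ (-2 : ℤ)) (hz : ‖z - w‖ ≤ (p : ℝ) ^ (-2 : ℤ)) :
    (fun i => PadicInt.toZMod (yh c (aff x) z i)) =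
      fun i => PadicInt.toZMod (yh c (aff u) w i) := by
  funext i
  rw [Pool.Agent.Helper23.HNG.map_yh, Pool.Agent.Helper23.HNG.map_yh, aff_zmod h, toZMod_eq hz]

theorem detN_unit (h : ‖x - u‖ ≤ (p : ℝ) ^ (-2 : ℤ)) (hz : ‖z - w‖ ≤ (p : ℝ) ^ (-2 : ℤ))
    (hu : IsUnit (Nx c (yh c (aff u) w)).det) : IsUnit (Nx c (yh c (aff x) z)).det := by
  refine isUnit_of_toZMod ?_ hu
  have e : ∀ v : I m → ℤ_[p], PadicInt.toZMod (Nx c v).det =
      (Nx (fun e => PadicInt.toZMod (c e)) (fun i => PadicInt.toZMod (v i))).det := by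
    intro v
    rw [Pool.Agent.Helper23.HNG.map_det, Pool.Agent.Helper23.HNG.map_Nx]
  rw [e, e, yh_zmod c h hz]

variable {c} {k : Un m → ℤ_[p]}

theorem detM_u0 (h : IsUnit (Pp c k)) : IsUnit (Mx c (aff fun i => k (.inl i))).det := by
  unfold Pp at h
  exact isUnit_of_mul_isUnit_left (isUnit_of_mul_isUnit_left (isUnit_of_mul_isUnit_left
    (isUnit_of_mul_isUnit_left (isUnit_of_mul_isUnit_left (isUnit_of_mul_isUnit_left h)))))

theorem detN_u0 (h : IsUnit (Pp c k)) (a : Fin (m + 2)) :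
    IsUnit (Nx c (yh c (aff fun i => k (.inl i)) (k (.inr a)))).det := by
  unfold Pp at h
  have h1 := isUnit_of_mul_isUnit_right (isUnit_of_mul_isUnit_left (isUnit_of_mul_isUnit_left
    (isUnit_of_mul_isUnit_left (isUnit_of_mul_isUnit_left h))))
  exact IsUnit.prod_univ_iff.1 h1 a

end unit

theorem pts {p : ℕ} [Fact p.Prime] (hp : p ≠ 2) {m : ℕ} (hm : 4 ≤ m) (c : Ix m → ℤ_[p])
    (k : Un m → ℤ_[p]) (h : Cfg c k) (N : ℕ) : ∃ x z a, Rp c k (2 * N + 1) x z ∧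
      ‖x - fun i => k (.inl i)‖ ≤ (p : ℝ) ^ (-2 : ℤ) ∧ ‖z - k (.inr a)‖ ≤ (p : ℝ) ^ (-2 : ℤ) := by
  obtain ⟨L, hA, hB, hC, hxi, hpsi, hkap, hsl, hd⟩ := Pool.Agent.Helper94.HN.exists_loc c
  obtain ⟨R, M, hu, hz, -, -, -, -, hM, -⟩ :=
    Pool.Agent.Helper64.XI.exists_mems hp hm c k h L hA hB hC hxi hpsi hkap hsl hd
  obtain ⟨i, b, k', x, -, hx⟩ := st_all M N
  have h0 : ‖R.z b - R.z b‖ ≤ (p : ℝ) ^ (-2 : ℤ) := by
    rw [sub_self, norm_zero]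
    positivity
  have hball := hx.ball (R.z b) h0
  rw [hu] at hball
  have hD : (Mx c (aff (x (R.z b)))).det ≠ 0 :=
    (detM_unit c hball (detM_u0 h.hP)).ne_zero
  refine ⟨x (R.z b), R.z b, b, hM N _ _ (hx.mem (R.z b) h0) hD, hball, ?_⟩
  rw [← congrFun hz b]
  exact h0

end Pool.Agent.Helper28.HN.Pts
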