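import Mathlib
import Pool.Agent.Helper28.HN.Orb

/-!
# Project HN: frame of `orb` (with sorry; the proof is in `Helper28/HN/OrbF.lean`)
-/

namespace Pool.Agent.Helper28.HN

open MvPolynomial

/-- ORB: the output of the blocks E, DYN, ALG, INT, G.  (`k` will be `PadicAlgCl p`.) -/
theorem orb {m : ℕ} (hm : 4 ≤ m) : ∃ Δ : MvPolynomial (Ix m) ℚ, Δ ≠ 0 ∧
    ∀ (K : Type) [Field K] [NumberField K] (c : Ix m → K), aeval c Δ ≠ 0 →
      ∃ (K' : Type) (_ : Field K') (_ : NumberField K') (_ : Algebra K K') (k : Type) (_ : Field k)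
        (_ : IsAlgClosed k) (_ : CharZero k) (_ : Algebra K' k) (x0 ξ0 y1 : I m → K'),
        Orb (k := k) (fun e => algebraMap K K' (c e)) x0 ξ0 y1 := by
  sorry

end Pool.Agent.Helper28.HN
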