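import Mathlib
import Pool.Agent.Helper28.HN.Cfg

/-!
# Project HN: the pieces (frames with sorry; proofs go to other files, in the namespace of the typist)
-/

namespace Pool.Agent.Helper28.HN.Pieces

open MvPolynomial Pool.Agent.Helper24.HN

/-! ## NAT: naturality (helper80) -/

section nat

variable {m : ℕ} {S S' : Type*} [CommRing S] [CommRing S'] (f : S →+* S') (c : Ix m → S)
  (x y x' y' ξ : I m → S) (u : Fin (m + 1) → S) (z : S) (k : Un m → S)

theorem map_lf (r : Fin m) : f (lf c r x y) = lf (fun e => f (c e)) r (fun i => f (x i))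
    (fun i => f (y i)) := by sorry
theorem map_qf : f (qf c x x' y y') = qf (fun e => f (c e)) (fun i => f (x i)) (fun i => f (x' i))
    (fun i => f (y i)) (fun i => f (y' i)) := by sorry
theorem map_aff (i : I m) : f (aff u i) = aff (fun i => f (u i)) i := by sorry
theorem map_detM : f (Mx c x).det = (Mx (fun e => f (c e)) (fun i => f (x i))).det := by sorry
theorem map_detN : f (Nx c y).det = (Nx (fun e => f (c e)) (fun i => f (y i))).det := by sorry
theorem map_Y0 (i : I m) : f (Y0 c x i) = Y0 (fun e => f (c e)) (fun i => f (x i)) i := by sorry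
theorem map_Y1 (i : I m) : f (Y1 c x i) = Y1 (fun e => f (c e)) (fun i => f (x i)) i := by sorry
theorem map_yh (i : I m) : f (yh c x z i) = yh (fun e => f (c e)) (fun i => f (x i)) (f z) i := by
  sorry
theorem map_vh (i : Fin (m + 1)) : f (vh c y i) = vh (fun e => f (c e)) (fun i => f (y i)) i := by
  sorry
theorem map_xh (i : I m) : f (xh c y i) = xh (fun e => f (c e)) (fun i => f (y i)) i := by sorry
theorem map_nx (i : I m) : f (nx c x y i) = nx (fun e => f (c e)) (fun i => f (x i))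
    (fun i => f (y i)) i := by sorry
theorem map_ny (i : I m) : f (ny c x y i) = ny (fun e => f (c e)) (fun i => f (x i))
    (fun i => f (y i)) i := by sorry
theorem map_Fh : f (Fh c x z) = Fh (fun e => f (c e)) (fun i => f (x i)) (f z) := by sorry
theorem map_Ah : f (Ah c x) = Ah (fun e => f (c e)) (fun i => f (x i)) := by sorry
theorem map_Bh : f (Bh c x) = Bh (fun e => f (c e)) (fun i => f (x i)) := by sorry
theorem map_Ch : f (Ch c x) = Ch (fun e => f (c e)) (fun i => f (x i)) := by sorry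
theorem map_psh : f (psh c x z) = psh (fun e => f (c e)) (fun i => f (x i)) (f z) := by sorry
theorem map_kah : f (kah c x z) = kah (fun e => f (c e)) (fun i => f (x i)) (f z) := by sorry
theorem map_qh : f (qh c x ξ z) = qh (fun e => f (c e)) (fun i => f (x i)) (fun i => f (ξ i)) (f z) := by
  sorry
theorem map_qa : f (qa c x ξ) = qa (fun e => f (c e)) (fun i => f (x i)) (fun i => f (ξ i)) := by
  sorry
theorem map_xz (i : I m) : f (xz c u z i) = xz (fun e => f (c e)) (fun i => f (u i)) (f z) i := by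
  sorry
theorem map_psP : (psP c x).map f = psP (fun e => f (c e)) (fun i => f (x i)) := by sorry
theorem map_Eqn (i : En m) : f (Eqn c k i) = Eqn (fun e => f (c e)) (fun a => f (k a)) i := by sorry
theorem map_Pp : f (Pp c k) = Pp (fun e => f (c e)) (fun a => f (k a)) := by sorry
theorem map_gG (p : I m × I m) : f (gG c y p) = gG (fun e => f (c e)) (fun i => f (y i)) p := by
  sorry
theorem map_ch (y1 : I m → S) (N : ℕ) (i : I m) :
    (((ch c x ξ y1 N).1 i).map f = (ch (fun e => f (c e)) (fun i => f (x i)) (fun i => f (ξ i))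
      (fun i => f (y1 i)) N).1 i) ∧
    (((ch c x ξ y1 N).2 i).map f = (ch (fun e => f (c e)) (fun i => f (x i)) (fun i => f (ξ i))
      (fun i => f (y1 i)) N).2 i) := by sorry

end nat

/-! ## LINE: identities over any commutative ring (helper75) -/

section line

variable {m : ℕ} {S : Type*} [CommRing S] (c : Ix m → S) (x y ξ : I m → S) (z w α β : S)

theorem lf_yh (r : Fin m) : lf c r x (yh c x z) = 0 := by sorry
theorem lf_xh (r : Fin m) : lf c r (xh c y) y = 0 := by sorry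
theorem yh_zero : yh c x z 0 = (Mx c x).det := by sorry
theorem yh_one : yh c x z 1 = z * (Mx c x).det := by sorry
theorem xh_zero : xh c y 0 = 0 := by sorry
theorem det_y (h : ∀ r, lf c r x y = 0) (i : I m) :
    (Mx c x).det * y i = y 0 * Y0 c x i + y 1 * Y1 c x i := by sorry
theorem det_x (h : ∀ r, lf c r ξ y = 0) (h0 : ξ 0 = 0) (i : I m) :
    (Nx c y).det * ξ i = ξ (Fin.last (m + 1)) * xh c y i := by sorry
theorem Fh_eq : Fh c x z = Ah c x * z ^ 2 + 2 * Bh c x * z + Ch c x := by sorry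
theorem qh_psh : qh c x (xh c (yh c x z)) z = 2 * (Mx c x).det * psh c x z := by sorry
/-- For all `z`: `qh` is a quadratic polynomial in `z` with the leading coefficient `qa`. -/
theorem qh_eq : ∃ b e : S, ∀ z, qh c x ξ z = qa c x ξ * z ^ 2 + b * z + e := by sorry
theorem yh_smul : yh c (fun i => α * x i) z = fun i => α ^ m * yh c x z i := by sorry
theorem xh_smul : xh c (fun i => β * y i) = fun i => β ^ m * xh c y i := by sorry
theorem Ah_smul : Ah c (fun i => α * x i) = α ^ (2 * m + 2) * Ah c x := by sorry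
theorem ny_smul : ny c (fun i => α * x i) (fun i => β * y i) =
    fun i => α ^ (2 * m + 2) * β * ny c x y i := by sorry
theorem nx_smul : nx c (fun i => α * x i) (fun i => β * y i) =
    fun i => α * β ^ (2 * m + 2) * nx c x y i := by sorry
theorem ny_yh (h : Ah c x * w = - 2 * Bh c x - Ah c x * z) :
    ny c x (yh c x z) = fun i => Ah c x * yh c x w i := by sorry
theorem onX_ny (h : OnX c x y) : OnX c x (ny c x y) := by sorry
theorem onX_nx (h : OnX c x y) : OnX c (nx c x y) y := by sorry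

end line

/-! ## CHAIN: the curves of the chain (helper50) -/

section chain

variable {m : ℕ} {K : Type*} [Field K] (c : Ix m → K) (x0 ξ0 y1 : I m → K)

/-- all curves lie on the variety (over `K[t]`) -/
theorem ch_onX (l0 : ∀ r, lf c r x0 y1 = 0) (l1 : ∀ r, lf c r ξ0 y1 = 0)
    (q0 : qf c x0 x0 y1 y1 = 0) (q1 : qf c x0 ξ0 y1 y1 = 0) (q2 : qf c ξ0 ξ0 y1 y1 = 0) (N : ℕ) :
    OnX (fun e => Polynomial.C (c e)) (ch c x0 ξ0 y1 N).1 (ch c x0 ξ0 y1 N).2 := by sorry

theorem rz_onX (l0 : ∀ r, lf c r x0 y1 = 0) (l1 : ∀ r, lf c r ξ0 y1 = 0)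
    (q0 : qf c x0 x0 y1 y1 = 0) (q1 : qf c x0 ξ0 y1 y1 = 0) (q2 : qf c ξ0 ξ0 y1 y1 = 0) (N : ℕ)
    (x y : I m → K) (h : Rz c x0 ξ0 y1 N x y) : OnX c x y := by sorry

/-- the start -/
theorem rz_start (t : K) (l0 : ∀ r, lf c r x0 y1 = 0) (l1 : ∀ r, lf c r ξ0 y1 = 0)
    (h0 : x0 0 = 1) (hx0 : ξ0 0 = 0) (z w : K) (h1 : y1 1 = z * y1 0) (h2 : y1 0 ≠ 0)
    (hA : Ah c (fun i => x0 i + t * ξ0 i) ≠ 0) (hD : (Mx c (fun i => x0 i + t * ξ0 i)).det ≠ 0)
    (hw : Ah c (fun i => x0 i + t * ξ0 i) * w =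
      - 2 * Bh c (fun i => x0 i + t * ξ0 i) - Ah c (fun i => x0 i + t * ξ0 i) * z) :
    Rz c x0 ξ0 y1 1 (fun i => x0 i + t * ξ0 i) (yh c (fun i => x0 i + t * ξ0 i) w) := by sorry

/-- the involution over `y` -/
theorem rz_nx (N : ℕ) (x : I m → K) (z t : K) (h : Rz c x0 ξ0 y1 (2 * N + 1) x (yh c x z))
    (hk : kah c x z ≠ 0) (ht : t * kah c x z = 2 * psh c x z) (hD : (Mx c x).det ≠ 0)
    (hD' : (Mx c (fun i => x i - t * xh c (yh c x z) i)).det ≠ 0) :
    Rz c x0 ξ0 y1 (2 * N + 2) (fun i => x i - t * xh c (yh c x z) i)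
      (yh c (fun i => x i - t * xh c (yh c x z) i) z) := by sorry

/-- the involution over `x` -/
theorem rz_ny (N : ℕ) (x : I m → K) (z w : K) (h : Rz c x0 ξ0 y1 (2 * N + 2) x (yh c x z))
    (hA : Ah c x ≠ 0) (hw : Ah c x * w = - 2 * Bh c x - Ah c x * z) :
    Rz c x0 ξ0 y1 (2 * N + 3) x (yh c x w) := by sorry

/-- hx, hy, hA, hK of `Orb` follow when the first coordinates of the curves `2 N + 2` do not vanish
for arbitrarily large `N` (`(ny c x y) 0 = Ah * y 0`, `(nx c x y) 0 = q(ξ, ξ; y, y) * x 0`). -/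
theorem ch_ne (h : ∀ N0, ∃ N, N0 ≤ N ∧ (ch c x0 ξ0 y1 (2 * N + 2)).1 0 ≠ 0 ∧
      (ch c x0 ξ0 y1 (2 * N + 2)).2 0 ≠ 0) :
    (∀ N, (ch c x0 ξ0 y1 N).1 0 ≠ 0) ∧ (∀ N, (ch c x0 ξ0 y1 N).2 0 ≠ 0) ∧
    (∀ N, Ah (fun e => Polynomial.C (c e)) (ch c x0 ξ0 y1 N).1 ≠ 0) ∧
    ∀ N, 1 ≤ N → qf (fun e => Polynomial.C (c e))
      (xh (fun e => Polynomial.C (c e)) (ch c x0 ξ0 y1 N).2)
      (xh (fun e => Polynomial.C (c e)) (ch c x0 ξ0 y1 N).2)
      (ch c x0 ξ0 y1 N).2 (ch c x0 ξ0 y1 N).2 ≠ 0 := by sorry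

/-- the curves `2 N` and `2 N + 1` have the same `x`, `2 N + 1` and `2 N + 2` the same `y` -/
theorem ch_same (N : ℕ) : (ch c x0 ξ0 y1 (2 * N + 1)).1 = (ch c x0 ξ0 y1 (2 * N)).1 ∧
    (ch c x0 ξ0 y1 (2 * N + 2)).2 = (ch c x0 ξ0 y1 (2 * N + 1)).2 := by sorry

end chain

/-! ## DIFF: the derivative of the form on the line (helper82) -/

/-- `D ∂_ξ Fh = qh + 2 (∂_ξ D) Fh`. Proof: differentiate `L_r (x + t ξ, yh) = 0` at `t = 0` and
multiply by the adjugate of `Mx c x`: `D y' = D' y + (0, 0, - adj (L (ξ, y)))`. -/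
theorem diff_F {m : ℕ} {S : Type*} [CommRing S] (c : Ix m → S) (x ξ : I m → S) :
    ∃ d : S, ∀ z, (Mx c x).det * ((Fh (fun e => Polynomial.C (c e))
      (fun i => Polynomial.C (x i) + Polynomial.X * Polynomial.C (ξ i))
        (Polynomial.C z)).derivative.eval 0) = qh c x ξ z + 2 * d * Fh c x z ∧
    (Mx c x).det * ((Ah (fun e => Polynomial.C (c e))
      (fun i => Polynomial.C (x i) + Polynomial.X * Polynomial.C (ξ i))).derivative.eval 0) =
      qa c x ξ + 2 * d * Ah c x := by sorry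

/-! ## LOC: the local data (helper94) -/

/-- Proof: `A`, `B`, `C`, `vh`, .. are polynomials in `x`, `z`: `poly_lip`, `poly_lip2` of helper45. The
last two: `diff_F`, and `sub_dvd_eval_sub` for the difference quotient of `2 * psh`. -/
theorem exists_loc {p : ℕ} [Fact p.Prime] {m : ℕ} (c : Ix m → ℤ_[p]) : ∃ L : Loc p (m + 1),
    (∀ x, L.A x = Ah c (aff x)) ∧ (∀ x, L.B x = 2 * Bh c (aff x)) ∧ (∀ x, L.C x = Ch c (aff x)) ∧
    (∀ x z, L.xi x z = vh c (yh c (aff x) z)) ∧ (∀ x z, L.psi x z = 2 * psh c (aff x) z) ∧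
    (∀ x z, L.kap x z = kah c (aff x) z) ∧
    (∀ x z, L.sl x z z = 2 * (psP c (aff x)).derivative.eval z) ∧
    (∀ x v, ∃ d, (∀ z, (Mx c (aff x)).det * L.dF x v z =
      qh c (aff x) (Fin.cons 0 v) z + 2 * d * Fh c (aff x) z) ∧
      (Mx c (aff x)).det * L.dA x v = qa c (aff x) (Fin.cons 0 v) + 2 * d * Ah c (aff x)) := by
  sorry

/-! ## EXIST: configurations (helper76, helper60) -/

/-- From `ET`, the example (`EX`), NAT. -/
theorem exists_cfg {m : ℕ} (hm : 4 ≤ m) : ∃ Δ : MvPolynomial (Ix m) ℚ, Δ ≠ 0 ∧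
    ∀ (K : Type) [Field K] [NumberField K] (c : Ix m → K), aeval c Δ ≠ 0 →
      ∃ (L : Type) (_ : Field L) (_ : NumberField L) (_ : Algebra K L) (k : Un m → L),
        (∀ i, Eqn (fun e => algebraMap K L (c e)) k i = 0) ∧
        Pp (fun e => algebraMap K L (c e)) k ≠ 0 ∧
        (Matrix.of fun i j => eval k (pderiv j (Gs (fun e => algebraMap K L (c e))
          (ee hm i)))).det ≠ 0 := by sorry

/-! ## PADIC: (helper45) -/

/-- From `exists_embedding`, `exists_near`, NAT. The right hand sides are `0` except for the equation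
of `qh` (`p`) and `(Ah, Bh) = (0, p ^ 2)` if `qa` at the direction of the root `k (.inr 0)` is a
unit, and `(p ^ 2, 0)` if not. -/
theorem exists_padic {m : ℕ} (hm : 4 ≤ m) {L : Type} [Field L] [NumberField L] (c : Ix m → L)
    (k : Un m → L) (hE : ∀ i, Eqn c k i = 0) (hP : Pp c k ≠ 0)
    (hJ : (Matrix.of fun i j => eval k (pderiv j (Gs c (ee hm i)))).det ≠ 0) :
    ∃ (p : ℕ) (_ : Fact p.Prime) (φ : L →+* ℚ_[p]) (c' : Ix m → ℤ_[p]) (k' : Un m → ℤ_[p])
      (K : IntermediateField ℚ ℚ_[p]), p ≠ 2 ∧ FiniteDimensional ℚ K ∧ (∀ x, φ x ∈ K) ∧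
      (∀ i, (k' i : ℚ_[p]) ∈ K) ∧ (∀ e, (c' e : ℚ_[p]) = φ (c e)) ∧ Cfg c' k' := by sorry

/-! ## INT: the dynamical data (helper64) -/

/-- The roots are indexed by `Fin (m + 2)`: `y = 0`, `j = Fin.last (m + 1)`, `m = 1`, `l = 2`. -/
theorem exists_mems {p : ℕ} [Fact p.Prime] (hp : p ≠ 2) {m : ℕ} (hm : 4 ≤ m) (c : Ix m → ℤ_[p])
    (k : Un m → ℤ_[p]) (h : Cfg c k) (L : Loc p (m + 1))
    (hA : ∀ x, L.A x = Ah c (aff x)) (hB : ∀ x, L.B x = 2 * Bh c (aff x))
    (hC : ∀ x, L.C x = Ch c (aff x)) (hxi : ∀ x z, L.xi x z = vh c (yh c (aff x) z))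
    (hpsi : ∀ x z, L.psi x z = 2 * psh c (aff x) z) (hkap : ∀ x z, L.kap x z = kah c (aff x) z)
    (hsl : ∀ x z, L.sl x z z = 2 * (psP c (aff x)).derivative.eval z)
    (hd : ∀ x v, ∃ d, (∀ z, (Mx c (aff x)).det * L.dF x v z =
      qh c (aff x) (Fin.cons 0 v) z + 2 * d * Fh c (aff x) z) ∧
      (Mx c (aff x)).det * L.dA x v = qa c (aff x) (Fin.cons 0 v) + 2 * d * Ah c (aff x)) :
    ∃ (R : Ref L (Fin (m + 2))) (M : Mems L R), R.u0 = (fun i => k (.inl i)) ∧
      R.z = (fun a => k (.inr a)) ∧ R.y = 0 ∧ R.j = Fin.last (m + 1) ∧ R.m = 1 ∧ R.l = 2 ∧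
      (∀ N x z, M.Mem N x z → (Mx c (aff x)).det ≠ 0 → Rp c k (2 * N + 1) x z) ∧
      (∀ N x z, M.Mem' N x z → (Mx c (aff x)).det ≠ 0 → Rp c k (2 * N + 2) x z) := by sorry

/-! ## ELIM: elimination of one variable (helper36) -/

/-- Two coprime forms: a form in the ideal which is free of the variable `i`. -/
theorem elim {k : Type*} [Field k] {σ : Type*} [Fintype σ] [DecidableEq σ] (F1 F2 : MvPolynomial σ k)
    (e1 e2 : ℕ) (h1 : F1.IsHomogeneous e1) (h2 : F2.IsHomogeneous e2) (h : IsRelPrime F1 F2) (i : σ) :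
    ∃ (D : MvPolynomial σ k) (e : ℕ), D ≠ 0 ∧ D.IsHomogeneous e ∧ D ∈ Ideal.span {F1, F2} ∧
      i ∉ D.vars := by sorry

/-- The affine part of a form free of one variable. -/
theorem dehom {k : Type*} [Field k] {m : ℕ} (D : MvPolynomial (I m) k) (e : ℕ) (h0 : D ≠ 0)
    (h : D.IsHomogeneous e) : aeval (aff X : I m → MvPolynomial (Fin (m + 1)) k) D ≠ 0 := by sorry

/-- The specialisations `y 0 = 1`, `y 1 = z` of a form vanish for finitely many `z` only. -/
theorem dehom2 {k : Type*} [Field k] {m : ℕ} (D : MvPolynomial (I m) k) (e : ℕ) (h0 : D ≠ 0)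
    (h : D.IsHomogeneous e) : {z : k | aeval (Fin.cons 1 (Fin.cons (C z) X) :
      I m → MvPolynomial (Fin m) k) D = 0}.Finite := by sorry

/-! ## ZERO: forms which vanish on a curve vanish at its points (helper63) -/

theorem zero_at {p : ℕ} [Fact p.Prime] {m : ℕ} (c : Ix m → ℤ_[p]) (k : Un m → ℤ_[p]) (N : ℕ)
    (F : MvPolynomial (I m) (PadicAlgCl p)) (e : ℕ) (hF : F.IsHomogeneous e)
    (x : Fin (m + 1) → ℤ_[p]) (z : ℤ_[p]) (h : Rp c k N x z) :
    (aeval (fun i => ((ch (cp c) (cp (aff fun i => k (.inl i))) (cp (xh c (sy c k)))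
        (cp (sy c k)) N).1 i).map (algebraMap ℚ_[p] (PadicAlgCl p))) F = 0 →
      aeval (fun i => algebraMap ℚ_[p] (PadicAlgCl p) (cp (aff x) i)) F = 0) ∧
    (aeval (fun i => ((ch (cp c) (cp (aff fun i => k (.inl i))) (cp (xh c (sy c k)))
        (cp (sy c k)) N).2 i).map (algebraMap ℚ_[p] (PadicAlgCl p))) F = 0 →
      aeval (fun i => algebraMap ℚ_[p] (PadicAlgCl p) (cp (yh c (aff x) z) i)) F = 0) := by sorry

/-! ## FXY: (helper3, helper24, helper28) -/

theorem fxy {p : ℕ} [Fact p.Prime] (hp : p ≠ 2) {m : ℕ} (hm : 4 ≤ m) (c : Ix m → ℤ_[p])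
    (k : Un m → ℤ_[p]) (h : Cfg c k) (F1 F2 : MvPolynomial (I m) (PadicAlgCl p)) (e1 e2 : ℕ)
    (h1 : F1.IsHomogeneous e1) (h2 : F2.IsHomogeneous e2) (h12 : IsRelPrime F1 F2) :
    {N | aeval (fun i => ((ch (cp c) (cp (aff fun i => k (.inl i))) (cp (xh c (sy c k)))
        (cp (sy c k)) N).1 i).map (algebraMap ℚ_[p] (PadicAlgCl p))) F1 = 0 ∧
      aeval (fun i => ((ch (cp c) (cp (aff fun i => k (.inl i))) (cp (xh c (sy c k)))
        (cp (sy c k)) N).1 i).map (algebraMap ℚ_[p] (PadicAlgCl p))) F2 = 0}.Finite ∧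
    {N | aeval (fun i => ((ch (cp c) (cp (aff fun i => k (.inl i))) (cp (xh c (sy c k)))
        (cp (sy c k)) N).2 i).map (algebraMap ℚ_[p] (PadicAlgCl p))) F1 = 0 ∧
      aeval (fun i => ((ch (cp c) (cp (aff fun i => k (.inl i))) (cp (xh c (sy c k)))
        (cp (sy c k)) N).2 i).map (algebraMap ℚ_[p] (PadicAlgCl p))) F2 = 0}.Finite := by sorry

/-- There are points in the ball on every curve. (from `start`, `step`; helper28) -/
theorem pts {p : ℕ} [Fact p.Prime] (hp : p ≠ 2) {m : ℕ} (hm : 4 ≤ m) (c : Ix m → ℤ_[p])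
    (k : Un m → ℤ_[p]) (h : Cfg c k) (N : ℕ) : ∃ x z a, Rp c k (2 * N + 1) x z ∧
      ‖x - fun i => k (.inl i)‖ ≤ (p : ℝ) ^ (-2 : ℤ) ∧ ‖z - k (.inr a)‖ ≤ (p : ℝ) ^ (-2 : ℤ) := by
  sorry

end Pool.Agent.Helper28.HN.Pieces
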